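import Pool.Agent.Helper66_BN.Stmts

/-!
# Squad PP, part BN: the correspondence is equivariant
-/

open scoped BigOperators

noncomputable section

namespace Pool.Agent.PP.BN.H66

open Pool.Agent.PP Pool.Agent.Helper51_AWC Pool.Agent.Helper79_WRA

variable {F D : Type} [Field F] [Group D]

/-- conjugation by an element of the normaliser as a permutation of `U` inside `M` -/
def cjU (M U : Subgroup D) [M.Normal] (x : Subgroup.normalizer (U : Set D)) :
    U.subgroupOf M ≃ U.subgroupOf M where
  toFun u := ⟨MulAut.conjNormal (x : D) u, by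
    rw [Subgroup.mem_subgroupOf, MulAut.conjNormal_apply]
    exact (Subgroup.mem_normalizer_iff.1 x.2 _).1 (Subgroup.mem_subgroupOf.1 u.2)⟩
  invFun u := ⟨MulAut.conjNormal (x⁻¹ : D) u, by
    rw [Subgroup.mem_subgroupOf, MulAut.conjNormal_apply]
    exact (Subgroup.mem_normalizer_iff.1 (inv_mem x.2) _).1 (Subgroup.mem_subgroupOf.1 u.2)⟩
  left_inv u := by
    apply Subtype.ext
    apply Subtype.ext
    simp only [MulAut.conjNormal_apply]
    group
  right_inv u := by
    apply Subtype.ext
    apply Subtype.ext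
    simp only [MulAut.conjNormal_apply]
    group

theorem cjU_coe (M U : Subgroup D) [M.Normal] (x : Subgroup.normalizer (U : Set D))
    (u : U.subgroupOf M) : ((cjU M U x u : U.subgroupOf M) : M) = MulAut.conjNormal (x : D) u := rfl

/-- CO3 -/
theorem co3 : Co3Stmt := by
  intro ℓ _ F _ D _ _ M U _ φ κ _ hc x
  obtain ⟨k, ρ, v, h1, h2, h3, h4, h5, h6⟩ := hc
  refine ⟨k, ρ.comp (MulAut.conjNormal (x : D) : M ≃* M).toMonoidHom, v, ⟨h1.1, ?_⟩, ?_, ?_, h4,
    fun b => ?_, fun w hw => h6 w fun u hu => ?_⟩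
  · have h7 : Set.range (ρ.comp (MulAut.conjNormal (x : D) : M ≃* M).toMonoidHom) =
        Set.range ρ := by
      ext A
      constructor
      · rintro ⟨g, rfl⟩
        exact ⟨_, rfl⟩
      · rintro ⟨g, rfl⟩
        exact ⟨(MulAut.conjNormal (x : D) : M ≃* M).symm g, by simp⟩
    rw [h7]
    exact h1.2
  · funext l
    rw [← h2]
    rfl
  · unfold SZ
    have h7 := finsum_comp_equiv (cjU M U x) (f := fun u : U.subgroupOf M => ρ u)
    rw [show ∑ᶠ u : U.subgroupOf M, ρ u = 0 from h3] at h7
    rw [← h7]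
    rfl
  · have h7 := h5 (MulAut.conjNormal x b)
    rw [← h7]
    have h8 : ((MulAut.conjNormal (x : D) : M ≃* M)
        ⟨((b : Subgroup.normalizer (U : Set D)) : D), b.2⟩ : M) =
        ⟨(((MulAut.conjNormal x b : M.subgroupOf (Subgroup.normalizer (U : Set D))) :
          Subgroup.normalizer (U : Set D)) : D), (MulAut.conjNormal x b).2⟩ := by
      apply Subtype.ext
      simp only [MulAut.conjNormal_apply, Subgroup.coe_mul, InvMemClass.coe_inv]
    show (ρ ((MulAut.conjNormal (x : D) : M ≃* M) _)).mulVec v = _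
    rw [h8]
  · have h7 := hw ((cjU M U x).symm ⟨u, hu⟩) ((cjU M U x).symm ⟨u, hu⟩).2
    have h8 : (MulAut.conjNormal (x : D) : M ≃* M) (((cjU M U x).symm ⟨u, hu⟩ : U.subgroupOf M) : M)
        = u := by
      rw [← cjU_coe, Equiv.apply_symm_apply]
    have h9 : (ρ ((MulAut.conjNormal (x : D) : M ≃* M)
      (((cjU M U x).symm ⟨u, hu⟩ : U.subgroupOf M) : M))).mulVec w = w := h7
    rwa [h8] at h9

end Pool.Agent.PP.BN.H66
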