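import Pool.Agent.Helper66_PP.StmtsF
import Pool.Agent.Helper58_CL.Stmt
import Pool.Agent.Helper36_PP.Classes

/-!
# Squad PP, part BN: simple groups with a split BN-pair of rank one of characteristic `ℓ`

Text: `AWC_BN.md`.  Definitions and statements of all modules.
-/

open scoped BigOperators

noncomputable section

namespace Pool.Agent.PP

open Pool.Agent.Helper51_AWC Pool.Agent.Helper79_WRA

/-! ## The class of groups -/

/-- A group with a split BN-pair of rank one of characteristic `ℓ` and an abelian torus, internal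
form: `B = U T`, `G = B ∪ U n B`. -/
structure Rk1 (ℓ : ℕ) {G : Type} [Group G] (U T : Subgroup G) (n : G) : Prop where
  ne : U ≠ ⊥
  pU : IsPGroup ℓ U
  TU : ∀ t ∈ T, ∀ u ∈ U, t * u * t⁻¹ ∈ U
  com : ∀ a ∈ T, ∀ b ∈ T, a * b = b * a
  cop : ¬ ℓ ∣ Nat.card T
  nT : ∀ t, t ∈ T ↔ n * t * n⁻¹ ∈ T
  nn : n * n ∈ T
  cell : ∀ m : G, (∃ u ∈ U, ∃ t ∈ T, m = u * t) ∨
    (∃ u ∈ U, ∃ t ∈ T, ∃ u' ∈ U, m = u * n * t * u')
  opp : ∀ u ∈ U, ∀ u' ∈ U, ∀ t ∈ T, n * u * n⁻¹ = u' * t → u = 1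

/-- The situation in a nearly simple group `D`. -/
structure RkD (ℓ : ℕ) {D : Type} [Group D] (M U T : Subgroup D) (n : M) : Prop where
  normal : M.Normal
  index : ¬ ℓ ∣ M.index
  zT : Subgroup.center D ≤ T
  UM : U ≤ M
  TM : T ≤ M
  ne : U ≠ ⊥
  bn : Rk1 ℓ (U.subgroupOf M) (T.subgroupOf M) n
  syl : ∀ P : Subgroup D, IsPGroup ℓ P → ∃ g : D, P ≤ conjS g U
  ti : ∀ g x : D, x ∈ U → x ≠ 1 → g * x * g⁻¹ ∈ U → g ∈ Subgroup.normalizer (U : Set D)
  norm : Subgroup.normalizer (U : Set D) ⊓ M = U ⊔ T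
  frat : M ⊔ Subgroup.normalizer (U : Set D) = ⊤
  cent : Subgroup.centralizer (U : Set D) ≤ U ⊔ Subgroup.center D

/-! ## Group theory -/

/-- G1 (BNG1): lifting the BN-pair of the simple group `S` to the normal subgroup `M` of `D`,
`M / Z(D) ≅ S`. -/
def G1Stmt : Prop := ∀ (ℓ : ℕ), ℓ.Prime → ∀ (S : Type) [Group S] [Finite S], RankOne ℓ S →
  (∃ x y : S, x * y ≠ y * x) → ∀ (D : Type) [Group D] [Finite D], opCore ℓ D = ⊥ → ∀ (M : Subgroup D),
  M.Normal → Subgroup.center D ≤ M → ∀ π : M →* S, Function.Surjective π →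
  (∀ m : M, π m = 1 ↔ (m : D) ∈ Subgroup.center D) →
  ∃ (U T : Subgroup D) (n : M), Subgroup.center D ≤ T ∧ U ≤ M ∧ T ≤ M ∧ U ≠ ⊥ ∧
    Rk1 ℓ (U.subgroupOf M) (T.subgroupOf M) n ∧
    Subgroup.normalizer (U : Set D) ⊓ M = U ⊔ T ∧ ¬ ℓ ∣ (U.subgroupOf M).index ∧
    (∀ m ∈ M, ∀ x ∈ U, x ≠ 1 → m * x * m⁻¹ ∈ U → m ∈ Subgroup.normalizer (U : Set D)) ∧
    (∀ m ∈ M, (∀ g ∈ M, g⁻¹ * m * g ∈ Subgroup.normalizer (U : Set D)) → m ∈ Subgroup.center D)

/-- G2 (BNG2): the remaining properties in `D`. -/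
def G2Stmt : Prop := ∀ (ℓ : ℕ), ℓ.Prime → ∀ (D : Type) [Group D] [Finite D], opCore ℓ D = ⊥ →
  ∀ (M : Subgroup D), M.Normal → Subgroup.center D ≤ M → ¬ ℓ ∣ M.index →
  (∀ g : D, (∀ m ∈ M, g * m * g⁻¹ * m⁻¹ ∈ Subgroup.center D) → g ∈ Subgroup.center D) →
  ∀ (U T : Subgroup D) (n : M), Subgroup.center D ≤ T → U ≤ M → T ≤ M → U ≠ ⊥ →
    Rk1 ℓ (U.subgroupOf M) (T.subgroupOf M) n →
    Subgroup.normalizer (U : Set D) ⊓ M = U ⊔ T → ¬ ℓ ∣ (U.subgroupOf M).index →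
    (∀ m ∈ M, ∀ x ∈ U, x ≠ 1 → m * x * m⁻¹ ∈ U → m ∈ Subgroup.normalizer (U : Set D)) →
    (∀ m ∈ M, (∀ g ∈ M, g⁻¹ * m * g ∈ Subgroup.normalizer (U : Set D)) →
      m ∈ Subgroup.center D) → RkD ℓ M U T n

/-! ## Chains -/

/-- CH (BN1): the alternating sum has two terms. -/
def ChStmt : Prop := ∀ (ℓ : ℕ) [Fact ℓ.Prime] (F : Type) [Field F] (D : Type) [Group D] [Finite D]
  (M U T : Subgroup D) (n : M), RkD ℓ M U T n → ∀ e : D → F, IsCl e →
  YY ℓ ⊤ e = (Nat.card D : ℤ) * ({f : D → F | f ∈ IBr F D ∧ actF e f = f}.ncard : ℤ) -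
    (Nat.card D : ℤ) * (lnum (Subgroup.normalizer (U : Set D)) e : ℤ)

/-! ## Brauer maps and the idempotent of the centre -/

section

variable {F D : Type} [Field F] [Group D]

/-- The central idempotent of the character `z ↦ ζ z⁻¹` of the centre. -/
def ez (ζ : Subgroup.center D →* F) : D → F :=
  open Classical in fun x => if h : x ∈ Subgroup.center D then
    ζ ⟨x, h⟩ / (Nat.card (Subgroup.center D) : F) else 0

/-- `e` lies over `ζ` -/
def OverZ (ζ : Subgroup.center D →* F) (e : D → F) : Prop :=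
  ∀ (z : Subgroup.center D) (x : D), e (z * x) = ζ z * e x

end

/-- DZE (BN3, first half): a central idempotent with vanishing Brauer map at `U` is supported on
elements of defect zero. -/
def DzeStmt : Prop := ∀ (ℓ : ℕ) [Fact ℓ.Prime] (F : Type) [Field F], GoodF ℓ F →
  ∀ (D : Type) [Group D] [Finite D] (M U T : Subgroup D) (n : M), RkD ℓ M U T n →
  ∀ e : D → F, IsIdem e → br U e = 0 →
  ∀ x, e x ≠ 0 → ¬ ℓ ∣ Nat.card (Subgroup.centralizer ({x} : Set D))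

/-- BRU (BN3, second half): a nonzero central idempotent of positive defect over `ζ` has Brauer
map `ez ζ` at `U`; and `ez ζ` is a central idempotent. -/
def BruStmt : Prop := ∀ (ℓ : ℕ) [Fact ℓ.Prime] (F : Type) [Field F], GoodF ℓ F →
  ∀ (D : Type) [Group D] [Finite D] (M U T : Subgroup D) (n : M), RkD ℓ M U T n →
  ∀ ζ : Subgroup.center D →* F, IsIdem (ez ζ) ∧ br U (ez ζ) = ez ζ ∧
    ∀ e : D → F, IsIdem e → OverZ ζ e → e ≠ 0 → Pos ℓ e ⊤ →
      br U e = ez ζ ∧ mulF (ez ζ) e = e ∧ IsIdem (fun x => ez ζ x - e x) ∧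
        br U (fun x => ez ζ x - e x) = 0

/-- NLU: on the normaliser of `U` the idempotent acts like its Brauer image. -/
def NluStmt : Prop := ∀ (ℓ : ℕ) [Fact ℓ.Prime] (F : Type) [Field F], GoodF ℓ F →
  ∀ (D : Type) [Group D] [Finite D] (U : Subgroup D), IsPGroup ℓ U → ∀ e : D → F, IsCl e →
  lnum (Subgroup.normalizer (U : Set D)) e = lnum (Subgroup.normalizer (U : Set D)) (br U e)

/-! ## Representations of the group of rank one -/

section reps

variable {F G : Type} [Field F] [Group G]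

/-- `v` spans the fixed points of `U` and has weight `μ` -/
def HW (U T : Subgroup G) {k : ℕ} (ρ : G →* Matrix (Fin k) (Fin k) F) (v : Fin k → F)
    (μ : T →* F) : Prop :=
  v ≠ 0 ∧ (∀ u ∈ U, (ρ u).mulVec v = v) ∧ (∀ t : T, (ρ t).mulVec v = μ t • v) ∧
    ∀ w : Fin k → F, (∀ u ∈ U, (ρ u).mulVec w = w) → ∃ c : F, w = c • v

/-- the sum of the elements of `U` acts as zero -/
def SZ (U : Subgroup G) {k : ℕ} (ρ : G →* Matrix (Fin k) (Fin k) F) : Prop :=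
  ∑ᶠ u : U, ρ u = 0

end reps

/-- CYC ((4.1)): cyclicity over `U`. -/
def CycStmt : Prop := ∀ (ℓ : ℕ) [Fact ℓ.Prime] (F : Type) [Field F], GoodF ℓ F →
  ∀ (G : Type) [Group G] [Finite G] (U T : Subgroup G) (n : G), Rk1 ℓ U T n →
  ∀ (k : ℕ) (ρ : G →* Matrix (Fin k) (Fin k) F), IsIrr ρ → ∀ (v : Fin k → F) (μ : T →* F),
  v ≠ 0 → (∀ u ∈ U, (ρ u).mulVec v = v) → (∀ t : T, (ρ t).mulVec v = μ t • v) →
  ∀ w : Fin k → F, ∃ a : U → F, w = ∑ᶠ u : U, a u • (ρ (u * n)).mulVec v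

/-- EHW ((4.2)): existence and uniqueness of the highest weight vector. -/
def EhwStmt : Prop := ∀ (ℓ : ℕ) [Fact ℓ.Prime] (F : Type) [Field F], GoodF ℓ F →
  ∀ (G : Type) [Group G] [Finite G] (U T : Subgroup G) (n : G), Rk1 ℓ U T n →
  ∀ (k : ℕ) (ρ : G →* Matrix (Fin k) (Fin k) F), IsIrr ρ → ∃ (v : Fin k → F) (μ : T →* F),
    HW U T ρ v μ

/-- FRE ((4.5)): if the sum of the elements of `U` does not act as zero, then the identity is a
trace from `1` to `U`. -/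
def FreStmt : Prop := ∀ (ℓ : ℕ) [Fact ℓ.Prime] (F : Type) [Field F], GoodF ℓ F →
  ∀ (G : Type) [Group G] [Finite G] (U T : Subgroup G) (n : G), Rk1 ℓ U T n →
  ∀ (k : ℕ) (ρ : G →* Matrix (Fin k) (Fin k) F), IsIrr ρ → ¬ SZ U ρ →
  ∃ φ : Matrix (Fin k) (Fin k) F, ∑ᶠ u : U, ρ u * φ * ρ (u⁻¹ : G) = 1

/-- UNQ ((4.3)): the weight determines the representation. -/
def UnqStmt : Prop := ∀ (ℓ : ℕ) [Fact ℓ.Prime] (F : Type) [Field F], GoodF ℓ F →
  ∀ (G : Type) [Group G] [Finite G] (U T : Subgroup G) (n : G), Rk1 ℓ U T n →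
  ∀ (k l : ℕ) (ρ : G →* Matrix (Fin k) (Fin k) F) (σ : G →* Matrix (Fin l) (Fin l) F),
  IsIrr ρ → IsIrr σ → SZ U ρ → SZ U σ → ∀ (v : Fin k → F) (w : Fin l → F) (μ : T →* F),
  HW U T ρ v μ → HW U T σ w μ → tr ρ = tr σ

/-- EXI ((4.4)): every weight occurs. -/
def ExiStmt : Prop := ∀ (ℓ : ℕ) [Fact ℓ.Prime] (F : Type) [Field F], GoodF ℓ F →
  ∀ (G : Type) [Group G] [Finite G] (U T : Subgroup G) (n : G), Rk1 ℓ U T n →
  ∀ μ : T →* F, ∃ (k : ℕ) (ρ : G →* Matrix (Fin k) (Fin k) F) (v : Fin k → F),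
    IsIrr ρ ∧ SZ U ρ ∧ HW U T ρ v μ

/-! ## The idempotent -/

/-- PCM (BN5, construction of `a`): a class function of `D` which is a trace from `1`, supported on
`M`, and acts as `1` on the irreducible representations of `M` on which the sum of the elements of
`U` is not zero, and as zero on the others. -/
def PcmStmt : Prop := ∀ (ℓ : ℕ) [Fact ℓ.Prime] (F : Type) [Field F], GoodF ℓ F →
  ∀ (D : Type) [Group D] [Finite D] (M U T : Subgroup D) (n : M), RkD ℓ M U T n →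
  ∃ a : D → F, IsCl a ∧ (∀ x, x ∉ M → a x = 0) ∧
    (∀ x, a x ≠ 0 → ¬ ℓ ∣ Nat.card (Subgroup.centralizer ({x} : Set D))) ∧
    ∀ (k : ℕ) (σ : M →* Matrix (Fin k) (Fin k) F), IsIrr σ →
      (SZ (U.subgroupOf M) σ → ev σ (fun t : M => a t) = 0) ∧
      (¬ SZ (U.subgroupOf M) σ → ev σ (fun t : M => a t) = 1)

/-- TRZ: a class function supported on elements of defect zero acts on a representation as a trace
from `1`. -/
def TrzStmt : Prop := ∀ (ℓ : ℕ) [Fact ℓ.Prime] (F : Type) [Field F], GoodF ℓ F →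
  ∀ (D : Type) [Group D] [Finite D] (a : D → F), IsCl a →
  (∀ x, a x ≠ 0 → ¬ ℓ ∣ Nat.card (Subgroup.centralizer ({x} : Set D))) →
  ∀ (k : ℕ) (ρ : D →* Matrix (Fin k) (Fin k) F), ∃ φ : Matrix (Fin k) (Fin k) F,
    ev ρ a = ∑ᶠ g : D, ρ g * φ * ρ g⁻¹

/-- CON: a representation of `M` of positive degree has an irreducible constituent: a subspace of
`F^m`, given by an injective matrix `X`, on which it acts by the irreducible representation `σ`;
if it is the restriction of an irreducible representation of `D` with `¬ ℓ ∣ |D : M|` the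
constituent is a direct summand, with projection `Y`. -/
def CnsStmt : Prop := ∀ (ℓ : ℕ) [Fact ℓ.Prime] (F : Type) [Field F], GoodF ℓ F →
  ∀ (D : Type) [Group D] [Finite D] (M : Subgroup D), M.Normal → ¬ ℓ ∣ M.index →
  ∀ (m : ℕ) (ρ : D →* Matrix (Fin m) (Fin m) F), IsIrr ρ →
  ∃ (k : ℕ) (σ : M →* Matrix (Fin k) (Fin k) F) (X : Matrix (Fin m) (Fin k) F)
    (Y : Matrix (Fin k) (Fin m) F), IsIrr σ ∧ Y * X = 1 ∧ (∀ g : M, ρ g * X = X * σ g) ∧
    ∀ g : M, Y * ρ g = σ g * Y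

/-- IDM (BN5): a class function `α` supported on `M` which acts like `e` on the irreducible
representations of `D`, and on an irreducible representation of `M` like `ez ζ` if the sum of the
elements of `U` is zero and as zero otherwise. -/
def AlpStmt : Prop := ∀ (ℓ : ℕ) [Fact ℓ.Prime] (F : Type) [Field F], GoodF ℓ F →
  ∀ (D : Type) [Group D] [Finite D] (M U T : Subgroup D) (n : M), RkD ℓ M U T n →
  ∀ (ζ : Subgroup.center D →* F) (e : D → F), IsIdem e → OverZ ζ e → e ≠ 0 → Pos ℓ e ⊤ →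
  ∃ α : D → F, IsCl α ∧ (∀ x, x ∉ M → α x = 0) ∧
    (∀ (m : ℕ) (ρ : D →* Matrix (Fin m) (Fin m) F), IsIrr ρ → ev ρ α = ev ρ e) ∧
    ∀ (k : ℕ) (σ : M →* Matrix (Fin k) (Fin k) F), IsIrr σ →
      (SZ (U.subgroupOf M) σ → ev σ (fun t : M => α t) = ev σ (fun t : M => ez ζ t)) ∧
      (¬ SZ (U.subgroupOf M) σ → ev σ (fun t : M => α t) = 0)

/-! ## The count -/

/-- COS: the sums of the counting lemma depend only on the cosets. -/
def CosStmt : Prop := ∀ (ℓ : ℕ) (F : Type) [Field F], GoodF ℓ F → ∀ (τ : F → ℂ),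
  ∀ (H : Type) [Group H] [Finite H] (L : Subgroup H) [L.Normal] (a : H → F) (x y : H),
  x * y * x⁻¹ * y⁻¹ ∈ L → ∀ l ∈ L, ∀ m ∈ L, csum τ L a (x * l) (y * m) = csum τ L a x y

/-- CMP: comparison of two counts with the same outer group. -/
def CmqStmt : Prop := ∀ (ℓ : ℕ) [Fact ℓ.Prime] (F : Type) [Field F], GoodF ℓ F →
  ∀ (D : Type) [Group D] [Finite D] (M N : Subgroup D) [M.Normal], M ⊔ N = ⊤ →
  ∀ (a : D → F) (b : N → F), IsCl a → (∀ x, x ∉ M → a x = 0) → IsCl b →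
  (∀ x : N, x ∉ M.subgroupOf N → b x = 0) →
  (∀ τ : F → ℂ, IsLift τ → ∀ x y : N, x * y * x⁻¹ * y⁻¹ ∈ M.subgroupOf N →
    csum τ M a x y = csum τ (M.subgroupOf N) b x y) →
  {θ : D → F | θ ∈ IBr F D ∧ actF a θ = θ}.ncard = {θ : N → F | θ ∈ IBr F N ∧ actF b θ = θ}.ncard

/-- WTS: the irreducible modular characters of `B = U T`, `U` a normal `ℓ`-subgroup, `T` abelian,
are the linear characters, they are trivial on `U`; if the order of `T` is prime to `ℓ` every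
linear character of `T` extends. -/
def WtsStmt : Prop := ∀ (ℓ : ℕ) [Fact ℓ.Prime] (F : Type) [Field F], GoodF ℓ F →
  ∀ (B : Type) [Group B] [Finite B] (U T : Subgroup B), U.Normal → IsPGroup ℓ U →
  (∀ a ∈ T, ∀ b ∈ T, a * b = b * a) → U ⊔ T = ⊤ →
  (∀ φ : B → F, φ ∈ IBr F B ↔ ∃ κ : B →* F, φ = κ) ∧ (∀ κ : B →* F, ∀ u ∈ U, κ u = 1) ∧
    (¬ ℓ ∣ Nat.card T → ∀ μ : T →* F, ∃ κ : B →* F, ∀ t : T, κ t = μ t)

section

variable {F D : Type} [Field F] [Group D]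

/-- The correspondence between the irreducible modular characters `φ` of `M` on which the sum of
the elements of `U` is zero, and the linear characters `κ` of `B = M ∩ N_D(U)`. -/
def Cor (M U : Subgroup D) (φ : M → F)
    (κ : M.subgroupOf (Subgroup.normalizer (U : Set D)) → F) : Prop :=
  ∃ (k : ℕ) (ρ : M →* Matrix (Fin k) (Fin k) F) (v : Fin k → F), IsIrr ρ ∧ tr ρ = φ ∧
    SZ (U.subgroupOf M) ρ ∧ v ≠ 0 ∧
    (∀ b : M.subgroupOf (Subgroup.normalizer (U : Set D)),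
      (ρ ⟨((b : Subgroup.normalizer (U : Set D)) : D), b.2⟩).mulVec v = κ b • v) ∧
    ∀ w : Fin k → F, (∀ u ∈ U.subgroupOf M, (ρ u).mulVec w = w) → ∃ c : F, w = c • v

end

/-- CO1: the correspondence is a bijection. -/
def Co1Stmt : Prop := ∀ (ℓ : ℕ) [Fact ℓ.Prime] (F : Type) [Field F], GoodF ℓ F →
  ∀ (D : Type) [Group D] [Finite D] (M U T : Subgroup D) (n : M), RkD ℓ M U T n →
  (∀ κ ∈ IBr F (M.subgroupOf (Subgroup.normalizer (U : Set D))), ∃ φ : M → F, Cor M U φ κ) ∧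
  (∀ (k : ℕ) (ρ : M →* Matrix (Fin k) (Fin k) F), IsIrr ρ → SZ (U.subgroupOf M) ρ →
    ∃ κ ∈ IBr F (M.subgroupOf (Subgroup.normalizer (U : Set D))), Cor M U (tr ρ) κ) ∧
  (∀ (φ φ' : M → F) (κ : M.subgroupOf (Subgroup.normalizer (U : Set D)) → F),
    Cor M U φ κ → Cor M U φ' κ → φ = φ') ∧
  (∀ (φ : M → F) (κ κ' : M.subgroupOf (Subgroup.normalizer (U : Set D)) → F),
    Cor M U φ κ → Cor M U φ κ' → κ = κ') ∧
  ∀ (φ : M → F) (κ : M.subgroupOf (Subgroup.normalizer (U : Set D)) → F), Cor M U φ κ →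
    φ ∈ IBr F M ∧ κ ∈ IBr F (M.subgroupOf (Subgroup.normalizer (U : Set D)))

/-- CO2: the correspondence and the centre. -/
def Co2Stmt : Prop := ∀ (ℓ : ℕ) [Fact ℓ.Prime] (F : Type) [Field F], GoodF ℓ F →
  ∀ (D : Type) [Group D] [Finite D] (M U T : Subgroup D) (n : M), RkD ℓ M U T n →
  ∀ (ζ : Subgroup.center D →* F) (φ : M → F)
    (κ : M.subgroupOf (Subgroup.normalizer (U : Set D)) → F), Cor M U φ κ →
  (actF (fun t : M => ez ζ t) φ = φ ↔
    actF (fun t : M.subgroupOf (Subgroup.normalizer (U : Set D)) =>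
      ez ζ ((t : Subgroup.normalizer (U : Set D)) : D)) κ = κ)

/-- CO3: the correspondence is equivariant. -/
def Co3Stmt : Prop := ∀ (ℓ : ℕ) [Fact ℓ.Prime] (F : Type) [Field F],
  ∀ (D : Type) [Group D] [Finite D] (M U : Subgroup D) [M.Normal] (φ : M → F)
    (κ : M.subgroupOf (Subgroup.normalizer (U : Set D)) → F), U ≤ M → Cor M U φ κ →
  ∀ x : Subgroup.normalizer (U : Set D),
    Cor M U (fun l => φ (MulAut.conjNormal (x : D) l)) (fun l => κ (MulAut.conjNormal x l))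

/-- CO4: the scalars of the counting lemma agree. -/
def Co4Stmt : Prop := ∀ (ℓ : ℕ) [Fact ℓ.Prime] (F : Type) [Field F], GoodF ℓ F →
  ∀ (D : Type) [Group D] [Finite D] (M U : Subgroup D) [M.Normal] (φ : M → F)
    (κ : M.subgroupOf (Subgroup.normalizer (U : Set D)) → F), U ≤ M → IsPGroup ℓ U →
  Cor M U φ κ →
  κ ∈ IBr F (M.subgroupOf (Subgroup.normalizer (U : Set D))) →
  ∀ x y : Subgroup.normalizer (U : Set D),
    x * y * x⁻¹ * y⁻¹ ∈ M.subgroupOf (Subgroup.normalizer (U : Set D)) →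
    (∀ l, φ (MulAut.conjNormal (x : D) l) = φ l) → (∀ l, φ (MulAut.conjNormal (y : D) l) = φ l) →
    (∀ l, κ (MulAut.conjNormal x l) = κ l) → (∀ l, κ (MulAut.conjNormal y l) = κ l) →
    tc M φ (x : D) (y : D) = tc (M.subgroupOf (Subgroup.normalizer (U : Set D))) κ x y

/-- CNT (BN6): the number of irreducible modular characters. -/
def CnbStmt : Prop := ∀ (ℓ : ℕ) [Fact ℓ.Prime] (F : Type) [Field F], GoodF ℓ F →
  ∀ (D : Type) [Group D] [Finite D] (M U T : Subgroup D) (n : M), RkD ℓ M U T n →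
  ∀ (ζ : Subgroup.center D →* F) (e : D → F), IsIdem e → OverZ ζ e → e ≠ 0 → Pos ℓ e ⊤ →
  {f : D → F | f ∈ IBr F D ∧ actF e f = f}.ncard =
    lnum (Subgroup.normalizer (U : Set D)) (ez ζ)

/-- BNM: the alternating sum vanishes for `D`. -/
def BnmStmt : Prop := ∀ (ℓ : ℕ) [Fact ℓ.Prime] (F : Type) [Field F], GoodF ℓ F →
  ∀ (D : Type) [Group D] [Finite D] (M U T : Subgroup D) (n : M), RkD ℓ M U T n →
  ∀ e : D → F, IsIdem e → (∀ z ∈ Subgroup.center D, z ≠ 1 → ∃ c : F, ∀ x, e (z * x) = c * e x) →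
  Pos ℓ e ⊤ → YY ℓ ⊤ e = 0

/-- BN: the hypothesis on nearly simple groups holds for groups of rank one. -/
def BnStmt : Prop := ∀ (ℓ : ℕ) [Fact ℓ.Prime] (F : Type) [Field F], GoodF ℓ F →
  ∀ (H : Type) [Group H] [Finite H] (N : Subgroup H),
  (∀ (S : Type) [Group S] [Finite S], NonabSimple S → ℓ ∣ Nat.card S → Involves N S →
    RankOne ℓ S) → GoodP ℓ F N

end Pool.Agent.PP
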