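import Pool.Agent.Helper66_BN.Stmts

/-!
# Squad PP, part BN: the hypothesis on nearly simple groups holds for groups of rank one
-/

open scoped BigOperators

noncomputable section

namespace Pool.Agent.PP.BN.H66

open Pool.Agent.PP Pool.Agent.Helper51_AWC Pool.Agent.Helper79_WRA

/-- one nearly simple group -/
theorem bnx_one (hg1 : G1Stmt) (hg2 : G2Stmt) (hbnm : BnmStmt) (ℓ : ℕ) [Fact ℓ.Prime] (F : Type)
    [Field F] (hF : GoodF ℓ F) (S : Type) [Group S] [Finite S] (hS : NonabSimple S)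
    (hR : RankOne ℓ S) (D : Type) [Group D] [Finite D] (hop : opCore ℓ D = ⊥)
    (hns : NearlySimpleL ℓ D S) (e : D → F) (he : IsIdem e)
    (hz : ∀ z ∈ Subgroup.center D, z ≠ 1 → ∃ c : F, ∀ x, e (z * x) = c * e x)
    (hpos : Pos ℓ e ⊤) : YY ℓ ⊤ e = 0 := by
  obtain ⟨T₀, hT₀, hcent, ⟨φ⟩, -, hidx⟩ := hns
  have hsurj : Function.Surjective (QuotientGroup.mk' (Subgroup.center D)) :=
    QuotientGroup.mk'_surjective _
  set M : Subgroup D := T₀.comap (QuotientGroup.mk' (Subgroup.center D)) with hM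
  have hMn : M.Normal := hT₀.comap _
  have hZM : Subgroup.center D ≤ M := by
    intro z hz
    have h1 : QuotientGroup.mk' (Subgroup.center D) z = 1 := (QuotientGroup.eq_one_iff z).2 hz
    rw [hM, Subgroup.mem_comap, h1]
    exact one_mem _
  have hidx' : ¬ ℓ ∣ M.index := by
    rwa [hM, Subgroup.index_comap_of_surjective _ hsurj]
  let π : M →* S := φ.toMonoidHom.comp
    ((QuotientGroup.mk' (Subgroup.center D)).subgroupComap T₀)
  have hπ : Function.Surjective π :=
    φ.surjective.comp (MonoidHom.subgroupComap_surjective_of_surjective _ _ hsurj)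
  have hker : ∀ m : M, π m = 1 ↔ (m : D) ∈ Subgroup.center D := by
    intro m
    have h1 : π m = φ ((QuotientGroup.mk' (Subgroup.center D)).subgroupComap T₀ m) := rfl
    rw [h1, EmbeddingLike.map_eq_one_iff, ← QuotientGroup.eq_one_iff (m : D), Subtype.ext_iff]
    rfl
  obtain ⟨U, T, n, h1, h2, h3, h4, h5, h6, h7, h8, h9⟩ :=
    hg1 ℓ Fact.out S hR hS.2 D hop M hMn hZM π hπ hker
  have hD : RkD ℓ M U T n := by
    refine hg2 ℓ Fact.out D hop M hMn hZM hidx' ?_ U T n h1 h2 h3 h4 h5 h6 h7 h8 h9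
    intro g hg
    have h10 : (QuotientGroup.mk' (Subgroup.center D) g) ∈
        Subgroup.centralizer (T₀ : Set (D ⧸ Subgroup.center D)) := by
      rw [Subgroup.mem_centralizer_iff]
      intro t ht
      obtain ⟨m, rfl⟩ := hsurj t
      have h11 := hg m ht
      rw [← QuotientGroup.eq_one_iff] at h11
      have h12 : QuotientGroup.mk' (Subgroup.center D) (g * m * g⁻¹ * m⁻¹) = 1 := h11
      rw [map_mul, map_mul, map_mul, map_inv, map_inv, mul_inv_eq_one, mul_inv_eq_iff_eq_mul] at h12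
      exact h12.symm
    rw [hcent, Subgroup.mem_bot] at h10
    exact (QuotientGroup.eq_one_iff g).1 h10
  exact hbnm ℓ F hF D M U T n hD e he hz hpos

/-- BN -/
theorem bnx (hg1 : G1Stmt) (hg2 : G2Stmt) (hbnm : BnmStmt) : BnStmt := by
  intro ℓ _ F _ hF H _ _ N hN S _ _ hS hdiv hinv D _ _ hop hns _ e he hz hpos
  refine bnx_one hg1 hg2 hbnm ℓ F hF S hS (hN S hS hdiv hinv) D hop hns e he ?_ hpos
  intro z hz1 hz2
  obtain ⟨c, -, hc⟩ := hz z hz1 hz2
  exact ⟨c, hc⟩

end Pool.Agent.PP.BN.H66
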